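import Mathlib

/-!
# A finite family of intervals has a subfamily with the same union and multiplicity at most two

For project GSC (note 1871, sections 5).
-/

set_option autoImplicit false
open Set MeasureTheory

namespace Pool.Agent.H47.GSC

variable {ι : Type*}

/-- Three intervals with a common point: one of them is covered by the other two. -/
theorem mult_three {a b : ι → ℝ} {x : ℝ} {i j k : ι} (hij : i ≠ j) (hik : i ≠ k) (hjk : j ≠ k)
    (hi : x ∈ Ioo (a i) (b i)) (hj : x ∈ Ioo (a j) (b j)) (hk : x ∈ Ioo (a k) (b k)) :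
    ∃ l m n : ι, (l = i ∨ l = j ∨ l = k) ∧ (m = i ∨ m = j ∨ m = k) ∧ (n = i ∨ n = j ∨ n = k) ∧
      l ≠ m ∧ l ≠ n ∧ Ioo (a l) (b l) ⊆ Ioo (a m) (b m) ∪ Ioo (a n) (b n) := by
  have key : ∀ l m n : ι, x ∈ Ioo (a m) (b m) → x ∈ Ioo (a n) (b n) → a m ≤ a l → b l ≤ b n →
      Ioo (a l) (b l) ⊆ Ioo (a m) (b m) ∪ Ioo (a n) (b n) := by
    intro l m n hm hn h1 h2 y hy
    rcases le_total y x with h | h
    · exact Or.inl ⟨h1.trans_lt hy.1, h.trans_lt hm.2⟩
    · exact Or.inr ⟨hn.1.trans_le h, hy.2.trans_le h2⟩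
  have hT : ({i, j, k} : Set ι).Finite := by simp
  obtain ⟨m, hm, hmin⟩ := Set.exists_min_image {i, j, k} a hT ⟨i, by simp⟩
  obtain ⟨n, hn, hmax⟩ := Set.exists_max_image {i, j, k} b hT ⟨i, by simp⟩
  have hmem : ∀ q ∈ ({i, j, k} : Set ι), x ∈ Ioo (a q) (b q) := by
    intro q hq
    rcases hq with rfl | rfl | rfl <;> assumption
  have hl : ∃ l ∈ ({i, j, k} : Set ι), l ≠ m ∧ l ≠ n := by
    rcases hm with rfl | rfl | rfl <;> rcases hn with rfl | rfl | rfl
    · exact ⟨j, by simp, hij.symm, hij.symm⟩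
    · exact ⟨k, by simp, hik.symm, hjk.symm⟩
    · exact ⟨j, by simp, hij.symm, hjk⟩
    · exact ⟨k, by simp, hjk.symm, hik.symm⟩
    · exact ⟨i, by simp, hij, hij⟩
    · exact ⟨i, by simp, hij, hik⟩
    · exact ⟨j, by simp, hjk, hij.symm⟩
    · exact ⟨i, by simp, hik, hij⟩
    · exact ⟨i, by simp, hik, hik⟩
  obtain ⟨l, hl, hlm, hln⟩ := hl
  exact ⟨l, m, n, hl, hm, hn, hlm, hln,
    key l m n (hmem m hm) (hmem n hn) (hmin l hl) (hmax l hl)⟩

/-- A finite family of open intervals has a subfamily with the same union such that no point is in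
three members. -/
theorem exists_mult_two (s : Finset ι) (a b : ι → ℝ) :
    ∃ t ⊆ s, (⋃ i ∈ t, Ioo (a i) (b i)) = (⋃ i ∈ s, Ioo (a i) (b i)) ∧
      ∀ x : ℝ, ∀ i ∈ t, ∀ j ∈ t, ∀ k ∈ t, i ≠ j → i ≠ k → j ≠ k →
        ¬ (x ∈ Ioo (a i) (b i) ∧ x ∈ Ioo (a j) (b j) ∧ x ∈ Ioo (a k) (b k)) := by
  classical
  induction s using Finset.strongInduction with
  | H s ih =>
    by_cases h : ∀ x : ℝ, ∀ i ∈ s, ∀ j ∈ s, ∀ k ∈ s, i ≠ j → i ≠ k → j ≠ k →
        ¬ (x ∈ Ioo (a i) (b i) ∧ x ∈ Ioo (a j) (b j) ∧ x ∈ Ioo (a k) (b k))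
    · exact ⟨s, Finset.Subset.refl s, rfl, h⟩
    · push Not at h
      obtain ⟨x, i, hi, j, hj, k, hk, hij, hik, hjk, hxi, hxj, hxk⟩ := h
      obtain ⟨l, m, n, hl, hm, hn, hlm, hln, hsub⟩ := mult_three hij hik hjk hxi hxj hxk
      have hls : l ∈ s := by rcases hl with rfl | rfl | rfl <;> assumption
      have hms : m ∈ s := by rcases hm with rfl | rfl | rfl <;> assumption
      have hns : n ∈ s := by rcases hn with rfl | rfl | rfl <;> assumption
      obtain ⟨t, hts, htu, ht⟩ := ih (s.erase l) (Finset.erase_ssubset hls)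
      refine ⟨t, hts.trans (Finset.erase_subset _ _), htu.trans ?_, ht⟩
      ext y
      simp only [mem_iUnion, Finset.mem_erase]
      constructor
      · rintro ⟨q, ⟨-, hq⟩, hy⟩
        exact ⟨q, hq, hy⟩
      · rintro ⟨q, hq, hy⟩
        by_cases hql : q = l
        · subst hql
          rcases hsub hy with h' | h'
          · exact ⟨m, ⟨hlm.symm, hms⟩, h'⟩
          · exact ⟨n, ⟨hln.symm, hns⟩, h'⟩
        · exact ⟨q, ⟨hql, hq⟩, hy⟩

/-- The sum of the measures of the pieces is at most twice the measure of the union. -/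
theorem mult_measure (μ : Measure ℝ) (t : Finset ι) (a b : ι → ℝ)
    (h : ∀ x : ℝ, ∀ i ∈ t, ∀ j ∈ t, ∀ k ∈ t, i ≠ j → i ≠ k → j ≠ k →
        ¬ (x ∈ Ioo (a i) (b i) ∧ x ∈ Ioo (a j) (b j) ∧ x ∈ Ioo (a k) (b k))) (Z : Set ℝ) :
    ∑ i ∈ t, μ (Z ∩ Ioo (a i) (b i)) ≤ 2 * μ (Z ∩ ⋃ i ∈ t, Ioo (a i) (b i)) := by
  classical
  have h1 : ∀ i ∈ t, μ (Z ∩ Ioo (a i) (b i)) =
      ∫⁻ x, (Ioo (a i) (b i)).indicator (fun _ => 1) x ∂(μ.restrict (Z ∩ ⋃ i ∈ t, Ioo (a i) (b i))) := by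
    intro i hi
    have hms : MeasurableSet (Ioo (a i) (b i)) := measurableSet_Ioo
    rw [lintegral_indicator hms, setLIntegral_one, Measure.restrict_apply hms]
    congr 1
    ext x
    simp only [mem_inter_iff, mem_iUnion]
    constructor
    · rintro ⟨h1, h2⟩
      exact ⟨h2, h1, i, hi, h2⟩
    · rintro ⟨h2, h1, -⟩
      exact ⟨h1, h2⟩
  rw [Finset.sum_congr rfl h1, ← lintegral_finsetSum _
    (fun i _ => measurable_const.indicator measurableSet_Ioo)]
  have h2 : ∀ x : ℝ, ∑ i ∈ t, (Ioo (a i) (b i)).indicator (fun _ => (1 : ENNReal)) x ≤ 2 := by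
    intro x
    have h3 : ∑ i ∈ t, (Ioo (a i) (b i)).indicator (fun _ => (1 : ENNReal)) x =
        ((t.filter (fun i => x ∈ Ioo (a i) (b i))).card : ENNReal) := by
      rw [Finset.card_filter, Nat.cast_sum]
      refine Finset.sum_congr rfl (fun i _ => ?_)
      by_cases hx : x ∈ Ioo (a i) (b i) <;> simp [indicator, hx]
    rw [h3]
    have h4 : (t.filter (fun i => x ∈ Ioo (a i) (b i))).card ≤ 2 := by
      by_contra hc
      push Not at hc
      obtain ⟨i, hi, j, hj, k, hk, hij, hik, hjk⟩ := Finset.two_lt_card.mp hc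
      rw [Finset.mem_filter] at hi hj hk
      exact h x i hi.1 j hj.1 k hk.1 hij hik hjk ⟨hi.2, hj.2, hk.2⟩
    exact_mod_cast h4
  calc ∫⁻ x, ∑ i ∈ t, (Ioo (a i) (b i)).indicator (fun _ => (1 : ENNReal)) x
        ∂(μ.restrict (Z ∩ ⋃ i ∈ t, Ioo (a i) (b i)))
      ≤ ∫⁻ _, 2 ∂(μ.restrict (Z ∩ ⋃ i ∈ t, Ioo (a i) (b i))) := lintegral_mono h2
    _ = 2 * μ (Z ∩ ⋃ i ∈ t, Ioo (a i) (b i)) := by
        rw [lintegral_const, Measure.restrict_apply_univ]

/-- A finite family of open intervals has a subfamily with the same union such that, for every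
measure and every set `Z`, the sum of the measures of the traces on `Z` is at most twice the measure
of the trace of the union. -/
theorem exists_mult_two_measure (s : Finset ι) (a b : ι → ℝ) :
    ∃ t ⊆ s, (⋃ i ∈ t, Ioo (a i) (b i)) = (⋃ i ∈ s, Ioo (a i) (b i)) ∧
      ∀ (μ : Measure ℝ) (Z : Set ℝ),
        ∑ i ∈ t, μ (Z ∩ Ioo (a i) (b i)) ≤ 2 * μ (Z ∩ ⋃ i ∈ s, Ioo (a i) (b i)) := by
  obtain ⟨t, hts, htu, ht⟩ := exists_mult_two s a b
  refine ⟨t, hts, htu, fun μ Z => ?_⟩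
  rw [← htu]
  exact mult_measure μ t a b ht Z

end Pool.Agent.H47.GSC
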